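import Pool.Agent.E8helper49.PC.Stm

/-!
# Project PC, piece ROOT
-/

set_option autoImplicit false

namespace Pool.Agent.E8helper37.PC

open NumberField Ideal Pool.Agent.E8helper49.PC

variable {K : Type} [Field K] [NumberField K]

/-- the prime below -/
noncomputable def below (P : Ideal (𝓞 K)) : ℕ := absNorm (under ℤ P)

theorem below_prime (P : Ideal (𝓞 K)) (h1 : P.IsPrime) (h2 : P ≠ ⊥) : (below P).Prime := by
  have : NeZero P := ⟨h2⟩
  exact Nat.absNorm_under_prime P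

theorem mem_iff (P : Ideal (𝓞 K)) (n : ℕ) : (n : 𝓞 K) ∈ P ↔ below P ∣ n := by
  have h : ((n : ℤ) : 𝓞 K) ∈ P ↔ (below P : ℤ) ∣ n := Int.cast_mem_ideal_iff
  rw [Int.cast_natCast] at h
  rw [h]
  exact Int.natCast_dvd_natCast

theorem card_quot (P : Ideal (𝓞 K)) (h1 : P.IsPrime) :
    Nat.card (𝓞 K ⧸ P) = below P ^ P.inertiaDeg ℤ := by
  have : P.LiesOver (span {(below P : ℤ)}) := Int.liesOver_span_absNorm P
  rw [pow_inertiaDeg (below P) P, absNorm_apply, Submodule.cardQuot_apply]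

theorem ne_bot_of_mem {P : Ideal (𝓞 K)} {n : ℕ} (hn : n ≠ 0) (h : (n : 𝓞 K) ∈ P) : P ≠ ⊥ := by
  rintro rfl
  rw [mem_bot] at h
  exact hn (by exact_mod_cast h)

theorem finite_mem (n : ℕ) (hn : n ≠ 0) :
    {P : {P : Ideal (𝓞 K) // P.IsPrime ∧ P ≠ ⊥} | (n : 𝓞 K) ∈ P.1}.Finite := by
  have h0 : (span {(n : 𝓞 K)} : Ideal (𝓞 K)) ≠ ⊥ := by
    rw [Ne, span_singleton_eq_bot]
    exact_mod_cast hn
  have h1 : {I : Ideal (𝓞 K) | I ∣ span {(n : 𝓞 K)}}.Finite := by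
    have h2 := UniqueFactorizationMonoid.fintypeSubtypeDvd (span {(n : 𝓞 K)} : Ideal (𝓞 K)) h0
    rw [← Set.finite_coe_iff]
    refine Finite.of_injective (β := {x : Ideal (𝓞 K) // x ∣ span {(n : 𝓞 K)}})
      (fun x => ⟨x.1, x.2⟩) (fun x y h => ?_)
    exact Subtype.ext (congrArg Subtype.val h)
  refine Set.Finite.of_injOn (f := fun P : {P : Ideal (𝓞 K) // P.IsPrime ∧ P ≠ ⊥} => P.1) (t := {I : Ideal (𝓞 K) | I ∣ span {(n : 𝓞 K)}}) ?_ (fun _ _ _ _ h => Subtype.ext h) h1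
  intro P hP
  rw [Set.mem_ofPred_eq] at hP ⊢
  rw [dvd_span_singleton]
  exact hP

theorem three_mod {p f : ℕ} (h : p % 3 = 1) : p ^ f % 3 = 1 := by
  rw [Nat.pow_mod, h, one_pow]
  rfl

theorem t_ROOT : S_ROOT := by
  classical
  intro K _ _ D q hD hq hq3 hqD hp
  have key : ∀ P : Ideal (𝓞 K), P.IsPrime → P ≠ ⊥ →
      (((3 : 𝓞 K) ∉ P ∧ (D : 𝓞 K) ∈ P ∧ Nat.card (𝓞 K ⧸ P) % 3 = 2) ↔
        ((q : 𝓞 K) ∈ P ∧ Nat.card (𝓞 K ⧸ P) % 3 = 2)) := by
    intro P h1 h2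
    have hb := below_prime P h1 h2
    have h3' : (3 : 𝓞 K) ∈ P ↔ below P ∣ 3 := by
      have := mem_iff P 3
      rwa [Nat.cast_ofNat] at this
    constructor
    · rintro ⟨h3, h4, h5⟩
      refine ⟨?_, h5⟩
      rw [mem_iff] at h4 ⊢
      by_contra hcon
      have h6 : below P ≠ q := fun h => hcon (h ▸ dvd_rfl)
      have h7 := hp (below P) hb h4 h6
      rw [card_quot P h1, three_mod h7] at h5
      omega
    · rintro ⟨h3, h4⟩
      rw [mem_iff] at h3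
      have h5 : below P = q := (Nat.prime_dvd_prime_iff_eq hb hq).1 h3
      refine ⟨?_, ?_, h4⟩
      · rw [h3', h5]
        intro h6
        have h7 := (Nat.prime_dvd_prime_iff_eq hq Nat.prime_three).1 h6
        omega
      · rw [mem_iff, h5]
        exact hqD
  set B : Set {P : Ideal (𝓞 K) // P.IsPrime ∧ P ≠ ⊥} :=
    {P | (3 : 𝓞 K) ∈ P.1 ∧ Even (P.1.ramificationIdx ℤ)} with hB
  set C : Set {P : Ideal (𝓞 K) // P.IsPrime ∧ P ≠ ⊥} :=
    {P | (q : 𝓞 K) ∈ P.1 ∧ Nat.card (𝓞 K ⧸ P.1) % 3 = 2} with hC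
  have hBf : B.Finite := by
    refine (finite_mem (K := K) 3 (by norm_num)).subset ?_
    intro P hP
    have := hP.1
    rw [Set.mem_ofPred_eq, Nat.cast_ofNat]
    exact this
  have hCf : C.Finite := (finite_mem (K := K) q hq.ne_zero).subset fun P hP => hP.1
  have hloc : ∀ P : {P : Ideal (𝓞 K) // P.IsPrime ∧ P ≠ ⊥}, loc K D P.1 =
      if P ∈ B ∪ C then -1 else 1 := by
    intro P
    have hk := key P.1 P.2.1 P.2.2
    unfold loc
    by_cases h3 : (3 : 𝓞 K) ∈ P.1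
    · rw [if_pos h3]
      have hnC : P ∉ C := fun h => (hk.2 h).1 h3
      by_cases he : Even (P.1.ramificationIdx ℤ)
      · rw [if_pos he, if_pos (show P ∈ B ∪ C from Or.inl ⟨h3, he⟩)]
      · rw [if_neg he, if_neg]
        rintro (h | h)
        · exact he h.2
        · exact hnC h
    · rw [if_neg h3]
      by_cases h4 : (D : 𝓞 K) ∈ P.1 ∧ Nat.card (𝓞 K ⧸ P.1) % 3 = 2
      · rw [if_pos h4, if_pos (show P ∈ B ∪ C from Or.inr (hk.1 ⟨h3, h4⟩))]
      · rw [if_neg h4, if_neg]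
        rintro (h | h)
        · exact h3 h.1
        · exact h4 (hk.2 h).2
  have hdis : Disjoint B C := by
    rw [Set.disjoint_left]
    intro P h1 h2
    exact ((key P.1 P.2.1 P.2.2).2 h2).1 h1.1
  have hprod : ∏ᶠ P : {P : Ideal (𝓞 K) // P.IsPrime ∧ P ≠ ⊥}, loc K D P.1 =
      (-1) ^ (B.ncard + C.ncard) := by
    rw [← Set.ncard_union_eq hdis hBf hCf]
    have hf := hBf.union hCf
    rw [finprod_congr hloc]
    rw [finprod_eq_prod_of_mulSupport_subset (s := hf.toFinset) _ (by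
      intro P hP
      rw [Set.Finite.coe_toFinset]
      by_contra hcon
      rw [Function.mem_mulSupport, if_neg hcon] at hP
      exact hP rfl)]
    rw [Finset.prod_congr rfl (g := fun _ => (-1 : ℤ)) (fun P hP => by
      rw [if_pos ((Set.Finite.mem_toFinset hf).1 hP)]), Finset.prod_const,
      Set.ncard_eq_toFinset_card _ hf]
  have hnB : nB K = B.ncard := by
    unfold nB
    rw [← Nat.card_coe_set_eq]
    refine Nat.card_congr ⟨fun P => ⟨⟨P.1, P.2.1, ?_⟩, P.2.2⟩, fun P => ⟨P.1.1, P.1.2.1, P.2⟩,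
      fun _ => rfl, fun _ => rfl⟩
    have := P.2.2.1
    exact ne_bot_of_mem (n := 3) (by norm_num) (by rw [Nat.cast_ofNat]; exact this)
  have hnC : nC K q = C.ncard := by
    unfold nC
    rw [← Nat.card_coe_set_eq]
    refine Nat.card_congr ⟨fun P => ⟨⟨P.1, P.2.1, ?_⟩, P.2.2⟩, fun P => ⟨P.1.1, P.1.2.1, P.2⟩,
      fun _ => rfl, fun _ => rfl⟩
    exact ne_bot_of_mem hq.ne_zero P.2.2.1
  unfold rootNumber
  rw [hprod, hnB, hnC]
  unfold nA
  rw [← pow_add, add_assoc]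

end Pool.Agent.E8helper37.PC
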